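import Pool.Agent.Helper98.DISC.GoalsB

/-!
# Project DISC (MP_105b7b_pr): Cauchy's formula for the exterior domain (packet EXT)
-/

set_option autoImplicit false

open MeasureTheory Set Filter Topology Metric

noncomputable section

namespace Pool.Agent.Helper69.DISC

open Pool.Agent.Helper98.DISC

theorem ext_tendsto {r : ℝ} {f : ℂ → ℂ} (hf : Hol r f) (η : ℂ) :
    Tendsto (fun R : ℝ => ∮ z in C(0, R), f z / (z - η)) atTop (𝓝 0) := by
  obtain ⟨_, _, C, r', hC⟩ := hf
  have h1 : Tendsto (fun R : ℝ => 2 * Real.pi * C / (R - ‖η‖)) atTop (𝓝 0) :=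
    Tendsto.div_atTop tendsto_const_nhds (tendsto_atTop_add_const_right _ _ tendsto_id)
  refine squeeze_zero_norm' ?_ h1
  filter_upwards [eventually_gt_atTop (max r' (‖η‖ + 1)), eventually_gt_atTop (0 : ℝ)] with R hR hR0
  have hR1 : r' < R := lt_of_le_of_lt (le_max_left _ _) hR
  have hR2 : ‖η‖ + 1 < R := lt_of_le_of_lt (le_max_right _ _) hR
  have hpos : 0 < R - ‖η‖ := by linarith
  have h2 : ∀ z ∈ sphere (0 : ℂ) R, ‖f z / (z - η)‖ ≤ C / R / (R - ‖η‖) := by
    intro z hz
    have hz' : ‖z‖ = R := by simpa using hz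
    have h3 : ‖f z‖ * R ≤ C := by
      have := hC z (by rw [hz']; exact hR1)
      rwa [hz'] at this
    have h4 : ‖f z‖ ≤ C / R := by rwa [le_div_iff₀ hR0]
    have h5 : R - ‖η‖ ≤ ‖z - η‖ := by
      have := norm_sub_norm_le z η
      rwa [hz'] at this
    rw [norm_div]
    exact div_le_div₀ (le_trans (norm_nonneg _) h4) h4 hpos h5
  have h6 := circleIntegral.norm_integral_le_of_norm_le_const hR0.le h2
  refine h6.trans (le_of_eq ?_)
  field_simp

theorem ext_out {r ρ : ℝ} {f : ℂ → ℂ} (hf : Hol r f) (hr : r < ρ) (η : ℂ) (hη : ‖η‖ < ρ) :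
    (∮ z in C(0, ρ), f z / (z - η)) = 0 := by
  have hρ : 0 < ρ := lt_of_le_of_lt hf.1 hr
  have hd : ∀ z : ℂ, ρ ≤ ‖z‖ → DifferentiableAt ℂ (fun z => f z / (z - η)) z := by
    intro z hz
    refine (hf.2.1 z (lt_of_lt_of_le hr hz)).div (by fun_prop) ?_
    intro h
    have : z = η := sub_eq_zero.mp h
    rw [this] at hz
    linarith
  have h1 : ∀ R : ℝ, ρ ≤ R → (∮ z in C(0, R), f z / (z - η)) = ∮ z in C(0, ρ), f z / (z - η) := by
    intro R hR
    refine Complex.circleIntegral_eq_of_differentiable_on_annulus_off_countable hρ hR countable_empty ?_ ?_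
    · intro z hz
      refine (hd z ?_).continuousAt.continuousWithinAt
      have := hz.2
      rw [mem_ball_zero_iff, not_lt] at this
      exact this
    · intro z hz
      refine hd z ?_
      have := hz.1.2
      rw [mem_closedBall_zero_iff, not_le] at this
      exact this.le
  have h2 := ext_tendsto hf η
  have h3 : Tendsto (fun R : ℝ => ∮ z in C(0, R), f z / (z - η)) atTop
      (𝓝 (∮ z in C(0, ρ), f z / (z - η))) := by
    refine tendsto_const_nhds.congr' ?_
    filter_upwards [eventually_ge_atTop ρ] with R hR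
    exact (h1 R hR).symm
  exact tendsto_nhds_unique h3 h2

theorem ext_in {r ρ : ℝ} {f : ℂ → ℂ} (hf : Hol r f) (hr : r < ρ) (η : ℂ) (hη : ρ < ‖η‖) :
    (∮ z in C(0, ρ), f z / (z - η)) = -(2 * Real.pi * Complex.I) * f η := by
  have hρ : 0 < ρ := lt_of_le_of_lt hf.1 hr
  have hdη : DifferentiableAt ℂ f η := hf.2.1 η (hr.trans hη)
  -- the divided difference
  have h1 : ∀ R : ℝ, ρ ≤ R → (∮ z in C(0, R), dslope f η z) = ∮ z in C(0, ρ), dslope f η z := by
    intro R hR
    refine Complex.circleIntegral_eq_of_differentiable_on_annulus_off_countable hρ hR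
      (countable_singleton η) ?_ ?_
    · intro z hz
      have hz' : r < ‖z‖ := by
        have := hz.2
        rw [mem_ball_zero_iff, not_lt] at this
        linarith
      by_cases h : z = η
      · subst h
        exact (continuousAt_dslope_same.mpr hdη).continuousWithinAt
      · exact ((continuousAt_dslope_of_ne h).mpr (hf.2.1 z hz').continuousAt).continuousWithinAt
    · intro z hz
      have hz' : r < ‖z‖ := by
        have := hz.1.2
        rw [mem_closedBall_zero_iff, not_le] at this
        linarith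
      exact (differentiableAt_dslope_of_ne hz.2).mpr (hf.2.1 z hz')
  -- the two parts
  have h2 : ∀ R : ℝ, ρ ≤ R → R ≠ ‖η‖ → (∮ z in C(0, R), dslope f η z) =
      (∮ z in C(0, R), f z / (z - η)) - f η * ∮ z in C(0, R), (z - η)⁻¹ := by
    intro R hR hRη
    have hR0 : 0 ≤ R := hρ.le.trans hR
    have hne : ∀ z ∈ sphere (0 : ℂ) R, z - η ≠ 0 := by
      intro z hz h
      have hz' : ‖z‖ = R := by simpa using hz
      rw [sub_eq_zero.mp h] at hz'
      exact hRη hz'.symm
    have hc1 : ContinuousOn (fun z : ℂ => (z - η)⁻¹) (sphere 0 R) :=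
      ContinuousOn.inv₀ (by fun_prop) hne
    have hc2 : ContinuousOn (fun z : ℂ => f z / (z - η)) (sphere 0 R) := by
      refine ContinuousOn.div ?_ (by fun_prop) hne
      intro z hz
      have hz' : ‖z‖ = R := by simpa using hz
      exact (hf.2.1 z (by rw [hz']; linarith)).continuousAt.continuousWithinAt
    have hi1 : CircleIntegrable (fun z : ℂ => f z / (z - η)) 0 R := hc2.circleIntegrable hR0
    have hi2 : CircleIntegrable (fun z : ℂ => f η * (z - η)⁻¹) 0 R :=
      (continuousOn_const.mul hc1).circleIntegrable hR0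
    rw [← circleIntegral.integral_const_mul, ← circleIntegral.integral_sub hi1 hi2]
    refine circleIntegral.integral_congr hR0 (fun z hz => ?_)
    have hz1 : z ≠ η := fun h => hne z hz (sub_eq_zero.mpr h)
    simp only [dslope_of_ne f hz1, slope_def_field]
    rw [sub_div, div_eq_mul_inv (f η)]
  -- the inner integral
  have h3 : (∮ z in C(0, ρ), (z - η)⁻¹) = 0 := by
    have hne : ∀ z : ℂ, ‖z‖ ≤ ρ → z - η ≠ 0 := by
      intro z hz h
      rw [sub_eq_zero.mp h] at hz
      linarith
    refine Complex.circleIntegral_eq_zero_of_differentiable_on_off_countable hρ.le countable_empty ?_ ?_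
    · refine ContinuousOn.inv₀ (by fun_prop) (fun z hz => hne z ?_)
      simpa using hz
    · intro z hz
      refine DifferentiableAt.inv (by fun_prop) (hne z ?_)
      have := hz.1
      rw [mem_ball_zero_iff] at this
      exact this.le
  have h4 : ∀ R : ℝ, ‖η‖ < R → (∮ z in C(0, R), (z - η)⁻¹) = 2 * Real.pi * Complex.I := by
    intro R hR
    exact circleIntegral.integral_sub_inv_of_mem_ball (by rw [mem_ball_zero_iff]; exact hR)
  have h5 : Tendsto (fun R : ℝ => ∮ z in C(0, R), f z / (z - η)) atTop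
      (𝓝 ((∮ z in C(0, ρ), dslope f η z) + f η * (2 * Real.pi * Complex.I))) := by
    refine tendsto_const_nhds.congr' ?_
    filter_upwards [eventually_gt_atTop ‖η‖] with R hR
    have e1 := h1 R (hη.le.trans hR.le)
    have e2 := h2 R (hη.le.trans hR.le) (ne_of_gt hR)
    rw [h4 R hR, e1] at e2
    rw [e2]
    ring
  have h6 := tendsto_nhds_unique h5 (ext_tendsto hf η)
  have h7 := h2 ρ le_rfl (ne_of_lt hη)
  rw [h3, mul_zero, sub_zero] at h7
  rw [← h7]
  linear_combination h6

theorem ext : S_EXT := fun _ _ _ hf hr => ⟨fun η hη => ext_in hf hr η hη, fun η hη => ext_out hf hr η hη⟩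

end Pool.Agent.Helper69.DISC
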