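import Pool.Agent.Helper98.DISC.GoalsA

/-!
# Project DISC (MP_105b7b_pr): the Toda equation for the Wronskians (packet WT)
-/

set_option autoImplicit false

open MeasureTheory Set Filter Topology
open scoped Nat

noncomputable section

namespace Pool.Agent.Helper69.DISC

open Pool.Agent.Helper98.DISC

/-- `θ` as a derivation -/
def Th : Derivation ℂ (PowerSeries ℂ) (PowerSeries ℂ) :=
  (PowerSeries.X : PowerSeries ℂ) • PowerSeries.derivative ℂ

theorem Th_apply (f : PowerSeries ℂ) : Th f = th f := rfl

theorem Th_prod {ι : Type*} [DecidableEq ι] (s : Finset ι) (f : ι → PowerSeries ℂ) :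
    Th (∏ i ∈ s, f i) = ∑ j ∈ s, ∏ i ∈ s, (if i = j then Th (f i) else f i) := by
  induction s using Finset.induction_on with
  | empty => simp
  | insert a s ha ih =>
    rw [Finset.prod_insert ha, Derivation.leibniz, ih, Finset.sum_insert ha, Finset.prod_insert ha, if_pos rfl]
    have h1 : (∏ i ∈ s, if i = a then Th (f i) else f i) = ∏ i ∈ s, f i := by
      refine Finset.prod_congr rfl (fun i hi => ?_)
      rw [if_neg]
      rintro rfl
      exact ha hi
    have h2 : ∀ j ∈ s, (∏ i ∈ insert a s, if i = j then Th (f i) else f i)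
        = f a * ∏ i ∈ s, (if i = j then Th (f i) else f i) := by
      intro j hj
      rw [Finset.prod_insert ha, if_neg]
      rintro rfl
      exact ha hj
    rw [h1, Finset.sum_congr rfl h2, ← Finset.mul_sum]
    simp only [smul_eq_mul]
    ring

/-- the determinant `det θ^(r i + c j) μ` -/
def G (μ : PowerSeries ℂ) {N : ℕ} (r c : Fin N → ℕ) : PowerSeries ℂ :=
  Matrix.det (Matrix.of fun i j : Fin N => th^[r i + c j] μ)

theorem G_symm (μ : PowerSeries ℂ) {N : ℕ} (r c : Fin N → ℕ) : G μ r c = G μ c r := by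
  unfold G
  rw [← Matrix.det_transpose]
  congr 1
  ext i j : 2
  simp [Matrix.transpose_apply, add_comm]

theorem G_zero (μ : PowerSeries ℂ) {N : ℕ} (r c : Fin N → ℕ) (i j : Fin N) (hij : i ≠ j) (h : c i = c j) :
    G μ r c = 0 := by
  unfold G
  refine Matrix.det_zero_of_column_eq hij (fun k => ?_)
  simp [h]

theorem th_G (μ : PowerSeries ℂ) {N : ℕ} (r c : Fin N → ℕ) :
    th (G μ r c) = ∑ j, G μ r (Function.update c j (c j + 1)) := by
  unfold G
  rw [← Th_apply, Matrix.det_apply', map_sum]
  simp only [Matrix.det_apply']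
  rw [Finset.sum_comm]
  refine Finset.sum_congr rfl (fun σ _ => ?_)
  rw [Derivation.leibniz, Derivation.map_intCast, smul_zero, add_zero, Th_prod, smul_eq_mul, Finset.mul_sum]
  refine Finset.sum_congr rfl (fun j _ => ?_)
  congr 1
  refine Finset.prod_congr rfl (fun i _ => ?_)
  by_cases hij : i = j
  · subst hij
    rw [if_pos rfl, Th_apply]
    simp only [Matrix.of_apply, Function.update_self]
    rw [← add_assoc, Function.iterate_succ_apply']
  · rw [if_neg hij]
    simp only [Matrix.of_apply, Function.update_of_ne hij]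

/-- the indices without `N - 1` -/
def sk' (n : ℕ) (i : Fin (n + 1)) : ℕ := if (i : ℕ) = n then n + 1 else i

theorem th_G_val (μ : PowerSeries ℂ) (n : ℕ) (r : Fin (n + 1) → ℕ) :
    th (G μ r (fun i => (i : ℕ))) = G μ r (sk' n) := by
  rw [th_G]
  rw [Finset.sum_eq_single (Fin.last n)]
  · congr 1
    ext i
    by_cases hi : i = Fin.last n
    · subst hi
      simp [sk']
    · rw [Function.update_of_ne hi]
      have : (i : ℕ) ≠ n := by
        intro h
        exact hi (Fin.ext (by simpa using h))
      simp [sk', this]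
  · intro j _ hj
    have hj' : (j : ℕ) < n := by
      have h1 := j.2
      have h2 : (j : ℕ) ≠ n := by
        intro h
        exact hj (Fin.ext (by simpa using h))
      omega
    refine G_zero μ r _ j ⟨(j : ℕ) + 1, by omega⟩ ?_ ?_
    · intro h
      have := congrArg Fin.val h
      simp at this
    · rw [Function.update_self, Function.update_of_ne]
      intro h
      have := congrArg Fin.val h
      simp at this
  · intro h
    exact absurd (Finset.mem_univ _) h

theorem th_Wd (μ : PowerSeries ℂ) (n : ℕ) : th (Wd μ (n + 1)) = G μ (fun i => (i : ℕ)) (sk' n) :=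
  th_G_val μ n _

theorem th_th_Wd (μ : PowerSeries ℂ) (n : ℕ) : th (th (Wd μ (n + 1))) = G μ (sk' n) (sk' n) := by
  rw [th_Wd, G_symm, th_G_val]

theorem wt (h : S_DES) : S_WT := by
  intro μ N hN
  obtain ⟨n, rfl⟩ : ∃ n, N = n + 1 := ⟨N - 1, by omega⟩
  have hD := h (PowerSeries ℂ) n (Matrix.of fun i j : Fin (n + 2) => th^[(i : ℕ) + j] μ)
  have e1 : ((Matrix.of fun i j : Fin (n + 2) => th^[(i : ℕ) + j] μ).submatrix
      (fun i : Fin n => i.castSucc.castSucc) (fun i : Fin n => i.castSucc.castSucc)).det = Wd μ n := rfl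
  have s1 : ∀ i : Fin (n + 1), ((Fin.succAbove (Fin.last (n + 1)) i : Fin (n + 2)) : ℕ) = i := by
    intro i
    rw [Fin.succAbove_last]
    rfl
  have s2 : ∀ i : Fin (n + 1), ((Fin.succAbove (Fin.last n).castSucc i : Fin (n + 2)) : ℕ) = sk' n i := by
    intro i
    unfold sk'
    split_ifs with hi
    · have : i = Fin.last n := Fin.ext (by simpa using hi)
      subst this
      rw [Fin.succAbove_of_le_castSucc _ _ le_rfl]
      simp
    · rw [Fin.succAbove_of_castSucc_lt]
      · simp
      · rw [Fin.castSucc_lt_castSucc_iff]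
        exact Fin.lt_last_iff_ne_last.mpr (fun h => hi (by rw [h]; simp))
  have e2 : ((Matrix.of fun i j : Fin (n + 2) => th^[(i : ℕ) + j] μ).submatrix
      (Fin.succAbove (Fin.last (n + 1))) (Fin.succAbove (Fin.last (n + 1)))).det = Wd μ (n + 1) := by
    unfold Wd
    congr 1
    ext i j : 2
    simp only [Matrix.submatrix_apply, Matrix.of_apply, s1]
  have e3 : ((Matrix.of fun i j : Fin (n + 2) => th^[(i : ℕ) + j] μ).submatrix
      (Fin.succAbove (Fin.last n).castSucc) (Fin.succAbove (Fin.last n).castSucc)).det = G μ (sk' n) (sk' n) := by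
    unfold G
    congr 1
    ext i j : 2
    simp only [Matrix.submatrix_apply, Matrix.of_apply, s2]
  have e4 : ((Matrix.of fun i j : Fin (n + 2) => th^[(i : ℕ) + j] μ).submatrix
      (Fin.succAbove (Fin.last n).castSucc) (Fin.succAbove (Fin.last (n + 1)))).det
      = G μ (sk' n) (fun i => (i : ℕ)) := by
    unfold G
    congr 1
    ext i j : 2
    simp only [Matrix.submatrix_apply, Matrix.of_apply, s1, s2]
  have e5 : ((Matrix.of fun i j : Fin (n + 2) => th^[(i : ℕ) + j] μ).submatrix
      (Fin.succAbove (Fin.last (n + 1))) (Fin.succAbove (Fin.last n).castSucc)).det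
      = G μ (fun i => (i : ℕ)) (sk' n) := by
    unfold G
    congr 1
    ext i j : 2
    simp only [Matrix.submatrix_apply, Matrix.of_apply, s1, s2]
  rw [e1, e2, e3, e4, e5, G_symm μ (sk' n) (fun i => (i : ℕ)), ← th_Wd, ← th_th_Wd] at hD
  have e6 : Wd μ (n + 1 + 1) = (Matrix.of fun i j : Fin (n + 2) => th^[(i : ℕ) + j] μ).det := rfl
  rw [Nat.add_sub_cancel, e6, hD, sq]

end Pool.Agent.Helper69.DISC
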